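import Pool.Agent.H67.FS.Targets

/-!
# Module FLT of `MP_6f7589_ag`

The Fermat curve of degree `n ≥ 3` (with `n ≠ 0` in `K`) has no nonconstant points over a purely
transcendental extension of `K`.
-/

set_option autoImplicit false

namespace Pool.Agent.H19.FS

open Pool.Agent.H67.FS

universe u

/-- one variable: `f ^ n + g ^ n = h ^ n` implies that `f` is a constant multiple of `h`. -/
theorem flt_one {K : Type u} [Field K] {n : ℕ} (hn : 3 ≤ n) (chn : (n : K) ≠ 0)
    {f g h : Polynomial K} (hh : h ≠ 0) (heq : f ^ n + g ^ n = h ^ n) :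
    ∃ l : K, f = Polynomial.C l * h := by
  have hn0 : n ≠ 0 := by omega
  by_cases hf : f = 0
  · exact ⟨0, by simp [hf]⟩
  by_cases hg : g = 0
  · rw [hg, zero_pow hn0, add_zero] at heq
    have h1 : f ∣ h := (UniqueFactorizationMonoid.pow_dvd_pow_iff_dvd hn0).1 heq.dvd
    have h2 : h ∣ f := (UniqueFactorizationMonoid.pow_dvd_pow_iff_dvd hn0).1 heq.symm.dvd
    obtain ⟨u, hu⟩ := (associated_of_dvd_dvd h2 h1)
    obtain ⟨l, -, hl⟩ := Polynomial.isUnit_iff.1 u.isUnit
    exact ⟨l, by rw [← hu, ← hl, mul_comm]⟩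
  obtain ⟨d, a', b', c', ⟨h1, -, h3⟩, ha, -, hc⟩ :=
    fermatLastTheoremWith'_polynomial hn chn f g h hf hg hh heq
  obtain ⟨α, -, hα⟩ := Polynomial.isUnit_iff.1 ha
  obtain ⟨β, hβ0, hβ⟩ := Polynomial.isUnit_iff.1 hc
  refine ⟨α / β, ?_⟩
  rw [h1, h3, ← hα, ← hβ, ← mul_assoc, ← Polynomial.C_mul, div_mul_cancel₀]
  exact hβ0.ne_zero

theorem flt : T_FLT.{u} := by
  intro K _ _ τ _ n hn chn X Y hXY
  have hn0 : n ≠ 0 := by omega
  obtain ⟨a₁, c₁, hc₁, rfl⟩ := IsFractionRing.div_surjective (A := MvPolynomial τ K) X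
  obtain ⟨b₁, c₂, hc₂, rfl⟩ := IsFractionRing.div_surjective (A := MvPolynomial τ K) Y
  have hinj := IsFractionRing.injective (MvPolynomial τ K) (FractionRing (MvPolynomial τ K))
  have hc₁0 : c₁ ≠ 0 := nonZeroDivisors.ne_zero hc₁
  have hc₂0 : c₂ ≠ 0 := nonZeroDivisors.ne_zero hc₂
  have hi₁ : algebraMap (MvPolynomial τ K) (FractionRing (MvPolynomial τ K)) c₁ ≠ 0 := by
    rwa [Ne, map_eq_zero_iff _ hinj]
  have hi₂ : algebraMap (MvPolynomial τ K) (FractionRing (MvPolynomial τ K)) c₂ ≠ 0 := by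
    rwa [Ne, map_eq_zero_iff _ hinj]
  have key : (a₁ * c₂) ^ n + (b₁ * c₁) ^ n = (c₁ * c₂) ^ n := by
    apply hinj
    simp only [map_add, map_mul, map_pow]
    rw [div_pow, div_pow, div_add_div _ _ (pow_ne_zero _ hi₁) (pow_ne_zero _ hi₂),
      div_eq_one_iff_eq (mul_ne_zero (pow_ne_zero _ hi₁) (pow_ne_zero _ hi₂))] at hXY
    linear_combination hXY
  obtain ⟨P, hP⟩ : ∃ P, MvPolynomial.eval P (c₁ * c₂) ≠ 0 := by
    by_contra hcon
    push Not at hcon
    exact mul_ne_zero hc₁0 hc₂0 (MvPolynomial.funext (by simpa using hcon))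
  have main : ∀ Q : τ → K, MvPolynomial.eval Q (a₁ * c₂) * MvPolynomial.eval P (c₁ * c₂) =
      MvPolynomial.eval P (a₁ * c₂) * MvPolynomial.eval Q (c₁ * c₂) := by
    intro Q
    set φ : MvPolynomial τ K →ₐ[K] Polynomial K := MvPolynomial.aeval
      (fun i => (1 - Polynomial.X) * Polynomial.C (P i) + Polynomial.X * Polynomial.C (Q i)) with hφ
    have h0 : ∀ f, (φ f).eval 0 = MvPolynomial.eval P f := by
      intro f
      rw [hφ, MvPolynomial.aeval_def, Polynomial.algebraMap_eq]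
      have : (Polynomial.evalRingHom (0 : K)).comp (MvPolynomial.eval₂Hom Polynomial.C
        (fun i => (1 - Polynomial.X) * Polynomial.C (P i) + Polynomial.X * Polynomial.C (Q i))) =
          MvPolynomial.eval P := by
        apply MvPolynomial.ringHom_ext <;> intro i <;> simp
      exact congrArg (fun g : MvPolynomial τ K →+* K => g f) this
    have h1 : ∀ f, (φ f).eval 1 = MvPolynomial.eval Q f := by
      intro f
      rw [hφ, MvPolynomial.aeval_def, Polynomial.algebraMap_eq]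
      have : (Polynomial.evalRingHom (1 : K)).comp (MvPolynomial.eval₂Hom Polynomial.C
        (fun i => (1 - Polynomial.X) * Polynomial.C (P i) + Polynomial.X * Polynomial.C (Q i))) =
          MvPolynomial.eval Q := by
        apply MvPolynomial.ringHom_ext <;> intro i <;> simp
      exact congrArg (fun g : MvPolynomial τ K →+* K => g f) this
    have hc : φ (c₁ * c₂) ≠ 0 := by
      intro h
      apply hP
      rw [← h0, h, Polynomial.eval_zero]
    obtain ⟨l, hl⟩ := flt_one hn chn (f := φ (a₁ * c₂)) (g := φ (b₁ * c₁)) hc (by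
      rw [← map_pow, ← map_pow, ← map_add, key, map_pow])
    rw [← h0 (a₁ * c₂), ← h1 (a₁ * c₂), ← h0 (c₁ * c₂), ← h1 (c₁ * c₂), hl]
    simp only [Polynomial.eval_mul, Polynomial.eval_C]
    ring
  set cP := MvPolynomial.eval P (c₁ * c₂) with hcP
  have hpoly : (a₁ * c₂) * MvPolynomial.C cP =
      MvPolynomial.C (MvPolynomial.eval P (a₁ * c₂)) * (c₁ * c₂) := by
    apply MvPolynomial.funext
    intro Q
    rw [map_mul, MvPolynomial.eval_C, main Q, map_mul (MvPolynomial.eval Q) (MvPolynomial.C _), MvPolynomial.eval_C]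
  refine ⟨MvPolynomial.eval P (a₁ * c₂) / cP, ?_⟩
  have h2 := congrArg (algebraMap (MvPolynomial τ K) (FractionRing (MvPolynomial τ K))) hpoly
  rw [map_mul, map_mul, map_mul (algebraMap (MvPolynomial τ K) _) _ (c₁ * c₂), map_mul (algebraMap (MvPolynomial τ K) _) c₁ c₂] at h2
  have h3 : ∀ k : K, algebraMap K (FractionRing (MvPolynomial τ K)) k =
      algebraMap (MvPolynomial τ K) (FractionRing (MvPolynomial τ K)) (MvPolynomial.C k) := by
    intro k
    rw [IsScalarTower.algebraMap_apply K (MvPolynomial τ K), MvPolynomial.algebraMap_eq]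
  rw [← h3, ← h3] at h2
  rw [map_div₀]
  have h4 : algebraMap K (FractionRing (MvPolynomial τ K)) cP ≠ 0 := by
    rwa [Ne, map_eq_zero_iff _ (algebraMap K (FractionRing (MvPolynomial τ K))).injective]
  rw [div_eq_div_iff h4 hi₁]
  apply mul_right_cancel₀ hi₂
  linear_combination -h2

end Pool.Agent.H19.FS
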