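import Pool.Agent.H67.FS.Targets

/-!
# Module GAL of `MP_6f7589_ag`

The coordinates of a point of a configuration which is distinguished by its degree are purely
inseparable over the base field.
-/

set_option autoImplicit false

namespace Pool.Agent.H19.FS

open Pool.Agent.H67.FS Matrix

universe u

/-- An element of an algebraic closure fixed by all automorphisms is purely inseparable. -/
theorem fixed_pow_mem (L Lb : Type u) [Field L] [Field Lb] [Algebra L Lb] [IsAlgClosure L Lb]
    (x : Lb) (hx : ∀ σ : Lb ≃ₐ[L] Lb, σ x = x) :
    ∃ N : ℕ, ∀ N' ≥ N, x ^ (ringExpChar L ^ N') ∈ (algebraMap L Lb).range := by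
  classical
  have : IsAlgClosed Lb := IsAlgClosure.isAlgClosed L
  have halg : Algebra.IsAlgebraic L Lb := IsAlgClosure.isAlgebraic
  have : Normal L Lb := IsAlgClosure.normal L Lb
  have h1 : x ∈ perfectClosure L Lb := by
    rw [mem_perfectClosure_iff_natSepDegree_eq_one,
      Polynomial.natSepDegree_eq_of_isAlgClosed (E := Lb)]
    rw [Finset.card_eq_one]
    refine ⟨x, ?_⟩
    ext y
    have hne : minpoly L x ≠ 0 := minpoly.ne_zero (halg.isAlgebraic x).isIntegral
    rw [Multiset.mem_toFinset, Polynomial.mem_aroots, Finset.mem_singleton]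
    constructor
    · rintro ⟨-, hy⟩
      obtain ⟨σ, hσ⟩ := minpoly.exists_algEquiv_of_root' (halg.isAlgebraic x) hy
      rw [← hσ, hx]
    · rintro rfl
      exact ⟨hne, minpoly.aeval _ _⟩
  rw [mem_perfectClosure_iff] at h1
  obtain ⟨N, y, hy⟩ := h1
  refine ⟨N, fun N' hN' => ⟨y ^ (ringExpChar L ^ (N' - N)), ?_⟩⟩
  rw [map_pow, hy, ← pow_mul, ← pow_add, Nat.add_sub_of_le hN']

/-- linear independence of a tuple is preserved by a field automorphism -/
theorem linInd_map {F : Type u} [Field F] {κ J : Type} (σ : F ≃+* F) (v : κ → J → F) :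
    LinearIndependent F v → LinearIndependent F (fun a j => σ (v a j)) := by
  intro h
  exact h.map_of_injective_injective (σ.symm : F → F)
    ({ toFun := fun w j => σ (w j), map_zero' := by ext; simp, map_add' := by intros; ext; simp } :
      (J → F) →+ (J → F))
    (fun r hr => by simpa using hr)
    (fun m hm => by
      ext j
      have := congrFun hm j
      simpa using this)
    (fun r m => by ext j; simp)

theorem gal : T_GAL.{u} := by
  intro L Lb _ _ _ _ ι _ _ T z e he0 hinj hz hT p hp
  classical
  -- every automorphism permutes the points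
  have hperm : ∀ (σ : Lb ≃ₐ[L] Lb) (a : ι), ∃ b : ι, ∀ k, σ (e a k) = e b k := by
    intro σ a
    have hcard : Fintype.card ι = Module.finrank Lb (ι → Lb) := by simp
    have hne : Nonempty ι := ⟨a⟩
    let B : Module.Basis ι Lb (ι → Lb) := basisOfLinearIndependentOfCardEqFinrank hz hcard
    have hB : ∀ b, B b = z b := fun b => by
      simp [B]
    -- the conjugate vector
    set w : ι → Lb := fun i => σ (z a i) with hw
    have hTw : ∀ j : Fin 3, (T j).map (algebraMap L Lb) *ᵥ w = σ (e a j.succ) • w := by
      intro j
      ext i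
      have h := congrArg σ (congrFun (hT a j) i)
      simp only [mulVec, dotProduct, Matrix.map_apply, Pi.smul_apply, smul_eq_mul, map_sum,
        map_mul, AlgEquiv.commutes] at h
      simpa only [mulVec, dotProduct, Matrix.map_apply, Pi.smul_apply, smul_eq_mul, hw] using h
    have hw0 : w ≠ 0 := by
      intro h0
      apply hz.ne_zero a
      ext i
      have := congrFun h0 i
      simpa [hw] using this
    set c := B.repr w with hc
    have hwc : w = ∑ b, c b • z b := by
      conv_lhs => rw [← B.sum_repr w]
      simp only [hB, hc]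
    have hcoef : ∀ (j : Fin 3) (b : ι), c b * e b j.succ = σ (e a j.succ) * c b := by
      intro j b
      have h1 : (T j).map (algebraMap L Lb) *ᵥ w = ∑ b, (c b * e b j.succ) • z b := by
        rw [hwc, mulVec_sum]
        refine Finset.sum_congr rfl fun b _ => ?_
        rw [mulVec_smul, hT b j, smul_smul]
      have h2 : σ (e a j.succ) • w = ∑ b, (σ (e a j.succ) * c b) • z b := by
        conv_lhs => rw [hwc]
        rw [Finset.smul_sum]
        refine Finset.sum_congr rfl fun b _ => ?_
        rw [smul_smul]
      have h3 : ∑ b, (c b * e b j.succ - σ (e a j.succ) * c b) • z b = 0 := by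
        simp only [sub_smul, Finset.sum_sub_distrib]
        rw [← h1, ← h2, hTw j, sub_self]
      have := (Fintype.linearIndependent_iff.1 hz) _ h3 b
      exact sub_eq_zero.1 this
    obtain ⟨b, hb⟩ : ∃ b, c b ≠ 0 := by
      by_contra hcon
      push Not at hcon
      apply hw0
      rw [hwc]
      simp [hcon]
    refine ⟨b, fun k => ?_⟩
    refine Fin.cases ?_ (fun j => ?_) k
    · rw [he0, he0, map_one]
    · have h := hcoef j b
      rw [mul_comm (c b)] at h
      exact (mul_right_cancel₀ hb h).symm
  -- the distinguished point is fixed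
  have hfix : ∀ (σ : Lb ≃ₐ[L] Lb) (k : Fin 4), σ (e p k) = e p k := by
    intro σ
    choose π hπ using hperm σ
    have hπinj : Function.Injective π := by
      intro a b hab
      apply hinj
      apply σ.injective
      change σ (e a 1) = σ (e b 1)
      rw [hπ a 1, hπ b 1, hab]
    have hπbij : Function.Bijective π := Finite.injective_iff_bijective.1 hπinj
    let PI : ι ≃ ι := Equiv.ofBijective π hπbij
    have hcol : ∀ a b c, Col e a b c ↔ Col e (π a) (π b) (π c) := by
      intro a b c
      unfold Col
      rw [not_iff_not]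
      have h1 : (fun (i : Fin 3) (k : Fin 4) => σ ((![e a, e b, e c] : Fin 3 → Fin 4 → Lb) i k)) =
          ![e (π a), e (π b), e (π c)] := by
        ext i k
        fin_cases i
        · exact hπ a k
        · exact hπ b k
        · exact hπ c k
      have h2 : (fun (i : Fin 3) (k : Fin 4) => σ.symm
          ((![e (π a), e (π b), e (π c)] : Fin 3 → Fin 4 → Lb) i k)) = ![e a, e b, e c] := by
        rw [← h1]
        ext i k
        simp
      constructor
      · intro h
        have := linInd_map (σ : Lb ≃+* Lb) _ h
        rw [← h1]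
        exact this
      · intro h
        have := linInd_map (σ.symm : Lb ≃+* Lb) _ h
        rw [← h2]
        exact this
    have hdeg : deg e (π p) = deg e p := by
      unfold deg
      refine (Nat.card_congr (Equiv.subtypeEquiv (Equiv.prodCongr PI PI) ?_)).symm
      rintro ⟨b, c⟩
      change (b ≠ c ∧ b ≠ p ∧ c ≠ p ∧ Col e p b c) ↔
        (π b ≠ π c ∧ π b ≠ π p ∧ π c ≠ π p ∧ Col e (π p) (π b) (π c))
      rw [hπinj.ne_iff, hπinj.ne_iff, hπinj.ne_iff, ← hcol]
    have hpp : π p = p := by
      by_contra h
      exact hp _ h hdeg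
    intro k
    rw [hπ p k, hpp]
  choose N hN using fun k => fixed_pow_mem L Lb (e p k) (fun σ => hfix σ k)
  refine ⟨Finset.univ.sup N, fun N' hN' j => hN j N' ?_⟩
  exact (Finset.le_sup (Finset.mem_univ j)).trans hN'

end Pool.Agent.H19.FS
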