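import Pool.Agent.H67.FS.Targets

/-!
# Module VAL of `MP_6f7589_ag`

A specialisation is realised by a valuation ring.
-/

set_option autoImplicit false

namespace Pool.Agent.H19.FS

open Pool.Agent.H67.FS IsLocalRing

universe u

theorem val : T_VAL.{u} := by
  intro K κ₁ L _ _ _ _ _ σ _ a a' hspec hgen
  set P : Ideal (MvPolynomial σ K) := RingHom.ker (MvPolynomial.aeval (R := K) a).toRingHom with hP
  have : P.IsPrime := RingHom.ker_isPrime _
  have hmemP : ∀ f, f ∈ P ↔ MvPolynomial.aeval a f = 0 := fun f => Iff.rfl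
  have hu' : ∀ f : P.primeCompl, IsUnit (MvPolynomial.aeval (R := K) a' (f : MvPolynomial σ K)) := by
    intro f
    rw [isUnit_iff_ne_zero]
    intro h0
    exact f.2 ((hmemP _).2 (hspec _ h0))
  have hu : ∀ f : P.primeCompl, IsUnit (MvPolynomial.aeval (R := K) a (f : MvPolynomial σ K)) := by
    intro f
    rw [isUnit_iff_ne_zero]
    intro h0
    exact f.2 ((hmemP _).2 h0)
  -- the map to `L`
  let ψ : Localization.AtPrime P →+* L := IsLocalization.lift (M := P.primeCompl)
    (g := (MvPolynomial.aeval (R := K) a').toRingHom) hu'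
  have hψ : ∀ f : MvPolynomial σ K, ψ (algebraMap _ _ f) = MvPolynomial.aeval a' f := by
    intro f
    exact IsLocalization.lift_eq _ _
  let ρ : Localization.AtPrime P →+* κ₁ := IsLocalization.lift (M := P.primeCompl)
    (g := (MvPolynomial.aeval (R := K) a).toRingHom) hu
  have hρ : ∀ f : MvPolynomial σ K, ρ (algebraMap _ _ f) = MvPolynomial.aeval a f := by
    intro f
    exact IsLocalization.lift_eq _ _
  have hsurj : Function.Surjective ρ := by
    intro y
    have hy : y ∈ IntermediateField.adjoin K (Set.range a) := by rw [hgen]; trivial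
    rw [IntermediateField.mem_adjoin_range_iff] at hy
    obtain ⟨r, s, rfl⟩ := hy
    by_cases hs : MvPolynomial.aeval a s = 0
    · exact ⟨0, by simp [hs]⟩
    · have hsP : s ∈ P.primeCompl := fun h => hs ((hmemP _).1 h)
      refine ⟨IsLocalization.mk' _ r (⟨s, hsP⟩ : P.primeCompl), ?_⟩
      rw [eq_div_iff hs, ← hρ r, ← hρ s, ← map_mul]
      congr 1
      exact IsLocalization.mk'_spec (Localization.AtPrime P) r (⟨s, hsP⟩ : P.primeCompl)
  obtain ⟨W, hW, hloc⟩ := IsLocalRing.exists_factor_valuationRing
    ((algebraMap L (AlgebraicClosure L)).comp ψ)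
  set V := W.comap (algebraMap L (AlgebraicClosure L)) with hV
  have hWV : ∀ x, ψ x ∈ V := fun x => hW x
  let θ : Localization.AtPrime P →+* V := ψ.codRestrict V.toSubring hWV
  have hθ : ∀ x, (θ x : L) = ψ x := fun x => rfl
  have hθloc : ∀ x, IsUnit (θ x) → IsUnit x := by
    intro x hx
    obtain ⟨w, hw⟩ := hx.exists_left_inv
    apply hloc.map_nonunit
    have hw' : (w : L) * ψ x = 1 := by
      have := congrArg (fun z : V => (z : L)) hw
      simpa [hθ] using this
    refine IsUnit.of_mul_eq_one (⟨algebraMap L (AlgebraicClosure L) (w : L), w.2⟩ : W) ?_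
    apply Subtype.ext
    change (algebraMap L (AlgebraicClosure L)) (ψ x) * algebraMap L (AlgebraicClosure L) (w : L) = 1
    rw [← map_mul, mul_comm, hw', map_one]
  let g : Localization.AtPrime P →+* ResidueField V := (residue V).comp θ
  have hker : RingHom.ker ρ ≤ RingHom.ker g := by
    intro x hx
    rw [RingHom.mem_ker] at hx ⊢
    change residue V (θ x) = 0
    rw [IsLocalRing.residue_eq_zero_iff, IsLocalRing.mem_maximalIdeal, mem_nonunits_iff]
    intro hu2
    have := (hθloc x hu2).map ρ
    rw [hx] at this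
    exact not_isUnit_zero this
  have hK : ∀ k : K, ψ (algebraMap (MvPolynomial σ K) _ (MvPolynomial.C k)) = algebraMap K L k := by
    intro k; rw [hψ, MvPolynomial.aeval_C]
  have hX : ∀ s : σ, ψ (algebraMap (MvPolynomial σ K) _ (MvPolynomial.X s)) = a' s := by
    intro s; rw [hψ, MvPolynomial.aeval_X]
  refine ⟨W, fun k => ?_, fun s => ?_, RingHom.liftOfSurjective ρ hsurj ⟨g, hker⟩, fun k => ?_,
    fun s => ?_⟩
  · rw [← hK k]; exact hWV _
  · rw [← hX s]; exact hWV _
  · have h1 : algebraMap K κ₁ k = ρ (algebraMap (MvPolynomial σ K) _ (MvPolynomial.C k)) := by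
      rw [hρ, MvPolynomial.aeval_C]
    rw [h1, RingHom.liftOfRightInverse_comp_apply]
    change residue V (θ _) = _
    congr 1
    apply Subtype.ext
    rw [hθ]
    exact hK k
  · have h1 : a s = ρ (algebraMap (MvPolynomial σ K) _ (MvPolynomial.X s)) := by
      rw [hρ, MvPolynomial.aeval_X]
    rw [h1, RingHom.liftOfRightInverse_comp_apply]
    change residue V (θ _) = _
    congr 1
    apply Subtype.ext
    rw [hθ]
    exact hX s

end Pool.Agent.H19.FS
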